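import Pool.Agent.H48.MXN.Cl2Mix
import Pool.Agent.H48.MXN.Adm

/-!
# Slowdown of mixing in nilpotent groups

`t_mix` is the total variation mixing time (threshold `1/4`) of the lazy simple random walk on a
finite Cayley graph, exactly as in the frozen statement `S19769`.
-/

set_option autoImplicit false
open scoped Classical

namespace Pool.Agent.Results.MP_ff071a_pr.ClassTwoSlowdown

/-- One step of the lazy simple random walk on the Cayley graph of `G` with respect to `S`, acting
on the law of the position. -/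
noncomputable def lazyStep {G : Type} [Group G] (S : Finset G) (p : G → ℝ) (x : G) : ℝ :=
  p x / 2 + (∑ s ∈ S, p (x * s⁻¹)) / (2 * (S.card : ℝ))

/-- The total variation mixing time (threshold `1/4`) of the lazy simple random walk on the Cayley
graph of `G` with respect to `S`, started at the identity. -/
noncomputable def tmix {G : Type} [Group G] [Fintype G] (S : Finset G) : ℕ :=
  sInf {t : ℕ | (1 / 2 : ℝ) * ∑ g : G,
    |((lazyStep S)^[t] (fun x : G => if x = 1 then (1 : ℝ) else 0)) g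
      - 1 / (Fintype.card G : ℝ)| ≤ 1 / 4}

/-- `S` is a symmetric generating set, `S'` is a symmetric set containing `S` with
`|S'| ≤ C |S|`. -/
def Admissible {G : Type} [Group G] (C : ℝ) (S S' : Finset G) : Prop :=
  (∀ s ∈ S, s⁻¹ ∈ S) ∧ Subgroup.closure (S : Set G) = ⊤ ∧ (∀ s ∈ S', s⁻¹ ∈ S') ∧ S ⊆ S' ∧
    (S'.card : ℝ) ≤ C * (S.card : ℝ)

/-- `G` is nilpotent of class at most `c`: the term `γ_{c+1}(G)` of its lower central series is
trivial. -/
def ClassLE (G : Type) [Group G] (c : ℕ) : Prop := (⊤ : Subgroup G).lowerCentralSeries c = ⊥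

/-- For every `C`:
(1) if `G` is nilpotent of class at most `2` then
`t_mix(S') ≤ t_mix(S) exp (K sqrt (log log |G|))`;
(2) if in addition `|G|` is odd then `t_mix(S') ≤ K t_mix(S) log log |G|`;
(3) for every `k`, if `G` is nilpotent of class at most `k + 2` then
`t_mix(S') ≤ t_mix(S)^(k+1) exp (K sqrt (log log |G|))` (this contains (1)). -/
theorem result (C : ℝ) :
    (∃ K : ℝ, ∀ (G : Type) (_ : Group G) (_ : Fintype G) (S S' : Finset G),
      16 ≤ Fintype.card G → ClassLE G 2 → Admissible C S S' →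
      (tmix S' : ℝ) ≤ (tmix S : ℝ) *
        Real.exp (K * √(Real.log (Real.log (Fintype.card G))))) ∧
    (∃ K : ℝ, ∀ (G : Type) (_ : Group G) (_ : Fintype G) (S S' : Finset G),
      16 ≤ Fintype.card G → ClassLE G 2 → Odd (Fintype.card G) → Admissible C S S' →
      (tmix S' : ℝ) ≤ K * (tmix S : ℝ) * Real.log (Real.log (Fintype.card G))) ∧
    ∀ k : ℕ, ∃ K : ℝ, ∀ (G : Type) (_ : Group G) (_ : Fintype G) (S S' : Finset G),
      16 ≤ Fintype.card G → ClassLE G (k + 2) → Admissible C S S' →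
      (tmix S' : ℝ) ≤ (tmix S : ℝ) ^ (k + 1) *
        Real.exp (K * √(Real.log (Real.log (Fintype.card G)))) := by
  obtain ⟨b, hb⟩ := pow_unbounded_of_one_lt C (show (1 : ℝ) < 2 by norm_num)
  obtain ⟨a, ha⟩ : ∃ a : ℕ, a = b + 2 := ⟨_, rfl⟩
  have ha2 : 2 ≤ a := by omega
  have hCa : C ≤ 2 ^ a := by
    refine hb.le.trans ?_
    exact pow_le_pow_right₀ (by norm_num) (by omega)
  have hpair : ∀ (G : Type) (_ : Group G) (_ : Fintype G) (S S' : Finset G),
      16 ≤ Fintype.card G → Admissible C S S' →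
      Pool.Agent.H48.MXN.Pair a (Pool.Agent.H85.Mix.law S 1) (Pool.Agent.H85.Mix.law S' 1)
        (tmix S) := by
    intro G _ _ S S' hG hadm
    obtain ⟨hs, hgen, hs', hsub, hcard⟩ := hadm
    exact Pool.Agent.H48.MXN.pair_of_adm a S S' (by omega) hs hgen hs' hsub
      (hcard.trans (mul_le_mul_of_nonneg_right hCa (Nat.cast_nonneg _)))
  have hend : ∀ (G : Type) (_ : Group G) (_ : Fintype G) (S' : Finset G) (B : ℝ),
      (∃ t : ℕ, (t : ℝ) ≤ B ∧ Pool.Agent.H48.MXN.Mx (Pool.Agent.H85.Mix.law S' 1) t) →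
      (tmix S' : ℝ) ≤ B := by
    intro G _ _ S' B h
    obtain ⟨t, ht1, ht2⟩ := h
    have h1 := Pool.Agent.H48.MXN.tmix_of_Mx S' t ht2
    have h2 : (tmix S' : ℝ) ≤ t := by exact_mod_cast h1
    exact h2.trans ht1
  have h3 : ∀ k : ℕ, ∃ K : ℝ, ∀ (G : Type) (_ : Group G) (_ : Fintype G) (S S' : Finset G),
      16 ≤ Fintype.card G → ClassLE G (k + 2) → Admissible C S S' →
      (tmix S' : ℝ) ≤ (tmix S : ℝ) ^ (k + 1) *
        Real.exp (K * √(Real.log (Real.log (Fintype.card G)))) := by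
    intro k
    obtain ⟨B, hB0, hB⟩ := Pool.Agent.H48.MXN.nil_mix2 a ha2 k
    refine ⟨B * √2, ?_⟩
    intro G iG iF S S' hG hcl hadm
    have hp := hpair G iG iF S S' hG hadm
    obtain ⟨hL1, hΛ1, hΛ2⟩ := Pool.Agent.H48.MXN.loglog_pos (G := G) hG
    have h := hB G iG iF hcl _ _ hp.hp hp.hps hp.hq hp.hqs hp.hle hp.hq1 _ hp.hT hp.hmix
      (2 * Real.log (Real.log (Fintype.card G))) hL1 hΛ2
    have e : B * √(2 * Real.log (Real.log (Fintype.card G))) =
        B * √2 * √(Real.log (Real.log (Fintype.card G))) := by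
      rw [Real.sqrt_mul (by norm_num), mul_assoc]
    rw [e] at h
    exact hend G iG iF S' _ h
  refine ⟨?_, ⟨63 * (2 ^ a * 4), ?_⟩, h3⟩
  · obtain ⟨K, hK⟩ := h3 0
    refine ⟨K, fun G iG iF S S' hG hcl hadm => ?_⟩
    have h := hK G iG iF S S' hG hcl hadm
    simpa using h
  · intro G iG iF S S' hG hcl hodd hadm
    have hp := hpair G iG iF S S' hG hadm
    have hbij : Function.Bijective (fun x : G => x ^ 2) := by
      have hco : (Nat.card G).Coprime 2 := by
        rw [Nat.card_eq_fintype_card]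
        exact (Nat.coprime_two_right.2 hodd)
      exact (powCoprime hco).bijective
    have h2a : (0 : ℝ) < 2 ^ a := by positivity
    have hα1 : 1 / (2 : ℝ) ^ a < 1 := by
      rw [div_lt_one h2a]
      calc (1 : ℝ) < 2 ^ 2 := by norm_num
        _ ≤ 2 ^ a := pow_le_pow_right₀ (by norm_num) ha2
    have hle' : ∀ x, 1 / 2 ^ a * Pool.Agent.H85.Mix.law S 1 x ≤ Pool.Agent.H85.Mix.law S' 1 x := by
      intro x
      rw [one_div, inv_mul_le_iff₀ h2a]
      exact hp.hle x
    have h16 : (16 : ℝ) ≤ Fintype.card G := by exact_mod_cast hG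
    have hA : (2.77 : ℝ) ≤ Real.log (Fintype.card G) := by
      have h1 : Real.log 16 = 4 * Real.log 2 := by
        rw [show (16 : ℝ) = 2 ^ 4 by norm_num, Real.log_pow]
        norm_num
      have h2 := Real.log_two_gt_d9
      have h3 := Real.log_le_log (by norm_num) h16
      linarith
    have hexp : Real.exp (4 * Real.log (Real.log (Fintype.card G))) =
        Real.log (Fintype.card G) ^ 4 := by
      rw [show (4 : ℝ) * Real.log (Real.log (Fintype.card G)) =
        ((4 : ℕ) : ℝ) * Real.log (Real.log (Fintype.card G)) by norm_num, Real.exp_nat_mul,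
        Real.exp_log (by linarith)]
    have hΛG : 16 * Real.log (Fintype.card G) ≤
        Real.exp (4 * Real.log (Real.log (Fintype.card G))) := by
      rw [hexp]
      obtain ⟨A, hAd⟩ : ∃ A : ℝ, A = Real.log (Fintype.card G) := ⟨_, rfl⟩
      rw [← hAd] at hA ⊢
      have h1 : (16 : ℝ) ≤ A ^ 3 := by
        calc (16 : ℝ) ≤ 2.77 ^ 3 := by norm_num
          _ ≤ A ^ 3 := pow_le_pow_left₀ (by norm_num) hA 3
      nlinarith
    have hΛ1 : 1 ≤ 4 * Real.log (Real.log (Fintype.card G)) := by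
      have h1 := (Pool.Agent.H48.MXN.loglog_pos (G := G) hG).1
      linarith
    obtain ⟨t, ht1, ht2⟩ := Pool.Agent.H48.MXN.odd_mix (Pool.Agent.H48.MXN.cl2_of_lcs hcl) hbij
      hp.hp hp.hps hp.hq hp.hqs (1 / 2 ^ a) (by positivity) hα1 hle' _ hp.hT hp.hmix
      (4 * Real.log (Real.log (Fintype.card G))) hΛ1 hΛG
    refine hend G iG iF S' _ ⟨t, ht1.trans (le_of_eq ?_), ht2⟩
    rw [div_div_eq_mul_div]
    ring

end Pool.Agent.Results.MP_ff071a_pr.ClassTwoSlowdown
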