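import Mathlib
import Pool.Agent.H85.Mix.Final

set_option autoImplicit false
open scoped Classical

namespace Pool.Agent.Results.MP_ff071a_pr.LogLogSlowdown

/-- A slowdown of order `log log |G_n|` by adding products of two generators: there are finite
groups `G_n` with `|G_n| → ∞` and symmetric generating sets `S_n ⊂ S'_n`, every element of `S'_n`
being a product of at most two elements of `S_n`, with `|S'_n| ≤ 2 |S_n|`, such that the
total-variation mixing time (threshold `1/4`) of the lazy simple random walk for `S'_n` is at least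
`c · t_mix(S_n) · log log |G_n|`.  The statement is the frozen statement `S19769` with `i = 2`,
`C = 2` and with `log |G_n|` replaced by `log log |G_n|`. -/
theorem result :
  ∃ (G : ℕ → Type) (_ : ∀ n, Group (G n)) (_ : ∀ n, Fintype (G n))
    (S S' : ∀ n, Finset (G n)),
    Filter.Tendsto (fun n => Fintype.card (G n)) Filter.atTop Filter.atTop ∧
    (∀ n, (∀ s ∈ S n, s⁻¹ ∈ S n) ∧ Subgroup.closure ((S n : Set (G n))) = ⊤ ∧
      (∀ s ∈ S' n, s⁻¹ ∈ S' n) ∧ Subgroup.closure ((S' n : Set (G n))) = ⊤ ∧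
      S n ⊂ S' n ∧
      ∀ g ∈ S' n, ∃ l : List (G n), l.length ≤ 2 ∧ (∀ x ∈ l, x ∈ S n) ∧ l.prod = g) ∧
    (∀ n, (S' n).card ≤ 2 * (S n).card) ∧
    ∃ c : ℝ, 0 < c ∧ ∀ n,
      c * ((sInf {t : ℕ | (1 / 2 : ℝ) * ∑ g : G n,
            |((fun (p : G n → ℝ) (x : G n) =>
                p x / 2 + (∑ s ∈ S n, p (x * s⁻¹)) / (2 * ((S n).card : ℝ)))^[t]
              (fun x : G n => if x = 1 then (1 : ℝ) else 0)) g
              - 1 / (Fintype.card (G n) : ℝ)| ≤ 1 / 4} : ℕ) : ℝ)
        * Real.log (Real.log (Fintype.card (G n) : ℝ))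
      ≤ ((sInf {t : ℕ | (1 / 2 : ℝ) * ∑ g : G n,
            |((fun (p : G n → ℝ) (x : G n) =>
                p x / 2 + (∑ s ∈ S' n, p (x * s⁻¹)) / (2 * ((S' n).card : ℝ)))^[t]
              (fun x : G n => if x = 1 then (1 : ℝ) else 0)) g
              - 1 / (Fintype.card (G n) : ℝ)| ≤ 1 / 4} : ℕ) : ℝ) :=
  Pool.Agent.H85.Mix.main

end Pool.Agent.Results.MP_ff071a_pr.LogLogSlowdown
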