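import Pool.Agent.H48.MXN.Adm

/-!
# Slowdown of mixing when a large normal subgroup normalises one of the generating sets

`t_mix` is the total variation mixing time (threshold `1/4`) of the lazy simple random walk on a
finite Cayley graph, exactly as in the frozen statement `S19769`.
-/

set_option autoImplicit false
open scoped Classical

namespace Pool.Agent.Results.MP_ff071a_pr.NormalisedSlowdown

/-- One step of the lazy simple random walk on the Cayley graph of `G` with respect to `S`, acting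
on the law of the position. -/
noncomputable def lazyStep {G : Type} [Group G] (S : Finset G) (p : G → ℝ) (x : G) : ℝ :=
  p x / 2 + (∑ s ∈ S, p (x * s⁻¹)) / (2 * (S.card : ℝ))

/-- The law at time `t` of the lazy simple random walk started at the identity. -/
noncomputable def law {G : Type} [Group G] (S : Finset G) (t : ℕ) : G → ℝ :=
  (lazyStep S)^[t] (fun x : G => if x = 1 then (1 : ℝ) else 0)

/-- The total variation mixing time (threshold `1/4`) of the lazy simple random walk on the Cayley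
graph of `G` with respect to `S`, started at the identity. -/
noncomputable def tmix {G : Type} [Group G] [Fintype G] (S : Finset G) : ℕ :=
  sInf {t : ℕ | (1 / 2 : ℝ) * ∑ g : G, |law S t g - 1 / (Fintype.card G : ℝ)| ≤ 1 / 4}

/-- `S` is a symmetric generating set, `S'` is a symmetric set containing `S` with
`|S'| ≤ C |S|`. -/
def Admissible {G : Type} [Group G] (C : ℝ) (S S' : Finset G) : Prop :=
  (∀ s ∈ S, s⁻¹ ∈ S) ∧ Subgroup.closure (S : Set G) = ⊤ ∧ (∀ s ∈ S', s⁻¹ ∈ S') ∧ S ⊆ S' ∧
    (S'.card : ℝ) ≤ C * (S.card : ℝ)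

/-- `N` normalises the set `S` -/
def Normalises {G : Type} [Group G] (N : Subgroup G) (S : Finset G) : Prop :=
  ∀ n ∈ N, ∀ s ∈ S, n * s * n⁻¹ ∈ S

/-- Total variation distance to the uniform distribution of `G ⧸ N`, at time `r`, of the projection
to `G ⧸ N` of the walk on `G` with respect to `S`. -/
noncomputable def quotDist {G : Type} [Group G] [Fintype G] (N : Subgroup G) (S : Finset G)
    (r : ℕ) : ℝ :=
  (1 / 2 : ℝ) * ∑ y : G ⧸ N, |(∑ g : G, if (g : G ⧸ N) = y then law S r g else 0)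
    - 1 / (Fintype.card (G ⧸ N) : ℝ)|

/-- For every `C`:
(1) the slowdown is bounded if `S` or `S'` is invariant under conjugation;
(2) if the normal subgroup `N` normalises `S` or `S'` and the projection of the walk with respect to
`S'` to `G ⧸ N` is mixed at time `r` then
`t_mix(S') ≤ K (r + 1) t_mix(S) log (3 + log |G| / (r + 1))`;
(3) if `γ_{k+2}(G)` normalises `S` or `S'` (for example if `G` is nilpotent of class at most
`k + 2`, as then `γ_{k+2}(G)` is central) then
`t_mix(S') ≤ K t_mix(S)^(k+2) (log log |G|)^k log (3 + log |G| / t_mix(S)^(k+1))`. -/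
theorem result (C : ℝ) :
    (∃ K : ℝ, 0 < K ∧ ∀ (G : Type) (_ : Group G) (_ : Fintype G) (S S' : Finset G),
      2 ≤ Fintype.card G → Admissible C S S' → (Normalises ⊤ S ∨ Normalises ⊤ S') →
      (tmix S' : ℝ) ≤ K * (tmix S : ℝ)) ∧
    (∃ K : ℝ, 0 < K ∧ ∀ (G : Type) (_ : Group G) (_ : Fintype G) (S S' : Finset G)
      (N : Subgroup G) (r : ℕ), 2 ≤ Fintype.card G → Admissible C S S' → N.Normal →
      (Normalises N S ∨ Normalises N S') → quotDist N S' r ≤ 1 / 4 →
      (tmix S' : ℝ) ≤ K * (((r : ℝ) + 1) * (tmix S : ℝ) *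
        Real.log (3 + Real.log (Fintype.card G) / ((r : ℝ) + 1)))) ∧
    ∀ k : ℕ, ∃ K : ℝ, 0 < K ∧ ∀ (G : Type) (_ : Group G) (_ : Fintype G) (S S' : Finset G),
      16 ≤ Fintype.card G → Admissible C S S' →
      (Normalises ((⊤ : Subgroup G).lowerCentralSeries (k + 1)) S ∨
        Normalises ((⊤ : Subgroup G).lowerCentralSeries (k + 1)) S') →
      (tmix S' : ℝ) ≤ K * ((tmix S : ℝ) ^ (k + 2) *
        Real.log (Real.log (Fintype.card G)) ^ k *
        Real.log (3 + Real.log (Fintype.card G) / (tmix S : ℝ) ^ (k + 1))) := by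
  obtain ⟨b, hb⟩ := pow_unbounded_of_one_lt C (show (1 : ℝ) < 2 by norm_num)
  obtain ⟨a, ha⟩ : ∃ a : ℕ, a = b + 1 := ⟨_, rfl⟩
  have ha1 : 1 ≤ a := by omega
  have hCa : C ≤ 2 ^ a := by
    refine hb.le.trans ?_
    exact pow_le_pow_right₀ (by norm_num) (by omega)
  have hpair : ∀ (G : Type) (_ : Group G) (_ : Fintype G) (S S' : Finset G),
      2 ≤ Fintype.card G → Admissible C S S' →
      Pool.Agent.H48.MXN.Pair a (Pool.Agent.H85.Mix.law S 1) (Pool.Agent.H85.Mix.law S' 1)
        (tmix S) := by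
    intro G _ _ S S' hG hadm
    obtain ⟨hs, hgen, hs', hsub, hcard⟩ := hadm
    exact Pool.Agent.H48.MXN.pair_of_adm a S S' hG hs hgen hs' hsub
      (hcard.trans (mul_le_mul_of_nonneg_right hCa (Nat.cast_nonneg _)))
  have hnorm : ∀ (G : Type) (_ : Group G) (_ : Fintype G) (S S' : Finset G) (N : Subgroup G),
      (Normalises N S ∨ Normalises N S') →
      (Pool.Agent.H48.MXN.NInv N (Pool.Agent.H85.Mix.law S 1) ∨
        Pool.Agent.H48.MXN.NInv N (Pool.Agent.H85.Mix.law S' 1)) := by
    intro G _ _ S S' N h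
    rcases h with h | h
    · exact Or.inl (Pool.Agent.H48.MXN.ninv_of_norm N S h)
    · exact Or.inr (Pool.Agent.H48.MXN.ninv_of_norm N S' h)
  have hend : ∀ (G : Type) (_ : Group G) (_ : Fintype G) (S' : Finset G) (B : ℝ),
      (∃ t : ℕ, (t : ℝ) ≤ B ∧ Pool.Agent.H48.MXN.Mx (Pool.Agent.H85.Mix.law S' 1) t) →
      (tmix S' : ℝ) ≤ B := by
    intro G _ _ S' B h
    obtain ⟨t, ht1, ht2⟩ := h
    have h1 := Pool.Agent.H48.MXN.tmix_of_Mx S' t ht2
    have h2 : (tmix S' : ℝ) ≤ t := by exact_mod_cast h1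
    exact h2.trans ht1
  refine ⟨⟨35 * 2 ^ a, by positivity, ?_⟩, ⟨2 ^ (a + 10), by positivity, ?_⟩, ?_⟩
  · intro G iG iF S S' hG hadm hn
    have hp := hpair G iG iF S S' hG hadm
    refine hend G iG iF S' _ (Pool.Agent.H48.MXN.slow_comm a ha1 hp ?_)
    rcases hnorm G iG iF S S' ⊤ hn with h | h
    · exact Pool.Agent.H48.MXN.comm_of_ninv h
    · exact (Pool.Agent.H48.MXN.comm_of_ninv h).symm
  · intro G iG iF S S' N r hG hadm hN hn hr
    have hp := hpair G iG iF S S' hG hadm
    refine hend G iG iF S' _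
      (Pool.Agent.H48.MXN.slow_quot a ha1 hp N (hnorm G iG iF S S' N hn) r ?_)
    unfold Pool.Agent.H48.MXN.Mx
    rw [← Pool.Agent.H48.MXN.push_pw, ← Pool.Agent.H70.MX.law_eq_pw]
    unfold quotDist at hr
    have h1 : ∑ y : G ⧸ N, |(∑ g : G, if (g : G ⧸ N) = y then law S' r g else 0)
        - 1 / (Fintype.card (G ⧸ N) : ℝ)| ≤ 1 / 2 := by linarith
    convert h1 using 6
    unfold Pool.Agent.H48.MXN.push
    refine Finset.sum_congr rfl fun g _ => ?_
    rename_i y _ _
    by_cases hy : (g : G ⧸ N) = y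
    · rw [if_pos hy, if_pos (show (QuotientGroup.mk' N) g = y from hy)]
      rfl
    · rw [if_neg hy, if_neg (show ¬ (QuotientGroup.mk' N) g = y from hy)]
  · intro k
    obtain ⟨K, hK0, hK⟩ := Pool.Agent.H48.MXN.slow_nil a ha1 k
    refine ⟨K, hK0, ?_⟩
    intro G iG iF S S' hG hadm hn
    have hp := hpair G iG iF S S' (by omega) hadm
    exact hend G iG iF S' _ (hK G iG iF hG _ _ _ hp (hnorm G iG iF S S' _ hn))

end Pool.Agent.Results.MP_ff071a_pr.NormalisedSlowdown
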