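import Pool.Agent.H70.MX.Core

/-!
# An upper bound for the slowdown of mixing caused by adding generators

`t_mix` is the total variation mixing time (threshold `1/4`) of the lazy simple random walk on a
finite Cayley graph, exactly as in the frozen statement `S19769`.
-/

set_option autoImplicit false
open scoped Classical

namespace Pool.Agent.Results.MP_ff071a_pr.SlowdownBound

/-- One step of the lazy simple random walk on the Cayley graph of `G` with respect to `S`, acting
on the law of the position. -/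
noncomputable def lazyStep {G : Type} [Group G] (S : Finset G) (p : G → ℝ) (x : G) : ℝ :=
  p x / 2 + (∑ s ∈ S, p (x * s⁻¹)) / (2 * (S.card : ℝ))

/-- The total variation mixing time (threshold `1/4`) of the lazy simple random walk on the Cayley
graph of `G` with respect to `S`, started at the identity. -/
noncomputable def tmix {G : Type} [Group G] [Fintype G] (S : Finset G) : ℕ :=
  sInf {t : ℕ | (1 / 2 : ℝ) * ∑ g : G,
    |((lazyStep S)^[t] (fun x : G => if x = 1 then (1 : ℝ) else 0)) g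
      - 1 / (Fintype.card G : ℝ)| ≤ 1 / 4}

/-- `S` is a symmetric generating set, `S'` is a symmetric set containing `S` with
`|S'| ≤ C |S|`. -/
def Admissible {G : Type} [Group G] (C : ℝ) (S S' : Finset G) : Prop :=
  (∀ s ∈ S, s⁻¹ ∈ S) ∧ Subgroup.closure (S : Set G) = ⊤ ∧ (∀ s ∈ S', s⁻¹ ∈ S') ∧ S ⊆ S' ∧
    (S'.card : ℝ) ≤ C * (S.card : ℝ)

private theorem main (C : ℝ) : ∃ A c : ℝ, 0 < A ∧ 0 < c ∧
    ∀ (G : Type) (_ : Group G) (_ : Fintype G) (S S' : Finset G), 3 ≤ Fintype.card G →
      Admissible C S S' →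
      1 < Real.log (Fintype.card G) ∧ (1 : ℝ) ≤ (tmix S : ℝ) ∧
      (tmix S' : ℝ) ≤ A * (tmix S : ℝ) * Real.log (Fintype.card G) *
        Real.exp (-(c * Real.log (Real.log (Fintype.card G)) *
          min 1 (Real.log (Real.log (Fintype.card G)) / (tmix S : ℝ)))) := by
  obtain ⟨a, ha⟩ := pow_unbounded_of_one_lt C (show (1 : ℝ) < 2 by norm_num)
  obtain ⟨A, c, hA, hc, hnum⟩ := Pool.Agent.H70.MX.num (a + 1) (by omega)
  refine ⟨A, c, hA, hc, ?_⟩
  intro G _ _ S S' hG hadm
  obtain ⟨hs, hgen, hs', hsub, hcard⟩ := hadm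
  have hK : 1 < Real.log (Fintype.card G) := by
    rw [Real.lt_log_iff_exp_lt (by positivity)]
    have h1 : Real.exp 1 < 3 := by
      have := Real.exp_one_lt_d9
      linarith
    have h2 : (3 : ℝ) ≤ Fintype.card G := by exact_mod_cast hG
    linarith
  have hcard' : (S'.card : ℝ) ≤ 2 ^ (a + 1) * (S.card : ℝ) := by
    refine hcard.trans (mul_le_mul_of_nonneg_right ?_ (Nat.cast_nonneg _))
    have h1 : (2 : ℝ) ^ a ≤ 2 ^ (a + 1) := pow_le_pow_right₀ (by norm_num) (by omega)
    linarith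
  have hS : S.Nonempty := by
    rw [Finset.nonempty_iff_ne_empty]
    rintro rfl
    have h1 : (⊥ : Subgroup G) = ⊤ := by
      rw [← hgen]
      simp
    have h2 : Fintype.card G ≤ 1 := by
      rw [Fintype.card_le_one_iff]
      intro x y
      have hx : x ∈ (⊥ : Subgroup G) := h1 ▸ Subgroup.mem_top x
      have hy : y ∈ (⊥ : Subgroup G) := h1 ▸ Subgroup.mem_top y
      rw [Subgroup.mem_bot] at hx hy
      rw [hx, hy]
    omega
  have hT : 1 ≤ Pool.Agent.H85.Mix.tmix S :=
    Pool.Agent.H70.MX.tmix_pos S hS hs hgen (by omega)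
  have hT' : (1 : ℝ) ≤ (tmix S : ℝ) := by exact_mod_cast hT
  exact ⟨hK, hT', hnum _ _ _ hK hT' fun n =>
    Pool.Agent.H70.MX.core S S' hs hs' hgen hsub hG (a + 1) (by omega) hcard' n⟩

/-- For every `C` there are `A, c > 0` such that for every finite group `G` with `|G| ≥ 3` and all
symmetric `S ⊆ S'` with `S` generating and `|S'| ≤ C |S|`, with `L = log log |G|`,
`t_mix(S') ≤ A · t_mix(S) · log |G| · exp (- c · L · min(1, L / t_mix(S)))`. -/
theorem result (C : ℝ) : ∃ A c : ℝ, 0 < A ∧ 0 < c ∧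
    ∀ (G : Type) (_ : Group G) (_ : Fintype G) (S S' : Finset G), 3 ≤ Fintype.card G →
      Admissible C S S' →
      (tmix S' : ℝ) ≤ A * (tmix S : ℝ) * Real.log (Fintype.card G) *
        Real.exp (-(c * Real.log (Real.log (Fintype.card G)) *
          min 1 (Real.log (Real.log (Fintype.card G)) / (tmix S : ℝ)))) := by
  obtain ⟨A, c, hA, hc, h⟩ := main C
  exact ⟨A, c, hA, hc, fun G _ _ S S' hG hadm => (h G _ _ S S' hG hadm).2.2⟩

/-- Consequence (not part of `result`): for all `C` and `κ > 0` there is `c' > 0` such that a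
slowdown of the full order, `t_mix(S') ≥ κ · t_mix(S) · log |G|`, is possible only if
`t_mix(S) ≥ c' · (log log |G|)²`. -/
theorem full_order_only_if (C κ : ℝ) (hκ : 0 < κ) : ∃ c' : ℝ, 0 < c' ∧
    ∀ (G : Type) (_ : Group G) (_ : Fintype G) (S S' : Finset G), 3 ≤ Fintype.card G →
      Admissible C S S' →
      κ * (tmix S : ℝ) * Real.log (Fintype.card G) ≤ (tmix S' : ℝ) →
      c' * Real.log (Real.log (Fintype.card G)) ^ 2 ≤ (tmix S : ℝ) := by
  obtain ⟨A, c, hA, hc, h⟩ := main C
  obtain ⟨c', hc', h2⟩ := Pool.Agent.H70.MX.num2 A c κ hA hc hκ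
  refine ⟨c', hc', fun G _ _ S S' hG hadm hslow => ?_⟩
  obtain ⟨h3, h4, h5⟩ := h G _ _ S S' hG hadm
  exact h2 _ _ _ h3 h4 h5 hslow

end Pool.Agent.Results.MP_ff071a_pr.SlowdownBound
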